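import Pool.Agent.Helper75.PX.Stmts3

set_option autoImplicit false

universe u

open Module TensorProduct

namespace Pool.Agent.Helper75.PX

theorem y3_inv {D : Type u} [DivisionRing D] {u p q : D} (hp : p ≠ 0) (hq : q ≠ 0)
    (h : u * p = q * u) : u * p⁻¹ = q⁻¹ * u := by
  calc u * p⁻¹ = q⁻¹ * (q * u) * p⁻¹ := by rw [← mul_assoc q⁻¹, inv_mul_cancel₀ hq, one_mul]
    _ = q⁻¹ * u := by rw [← h, ← mul_assoc, mul_assoc _ p, mul_inv_cancel₀ hp, mul_one]

theorem st_Y3 (hK3 : ST_K3.{u}) : ST_Y3.{u} := by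
  intro K D _ _ _ _ hD u x c hc hu3 hx hux
  have hu : u ≠ 0 := by
    rintro rfl
    rw [zero_mul, zero_mul] at hu3
    exact hc ((map_eq_zero (algebraMap K D)).1 hu3.symm)
  obtain ⟨s1, hs1⟩ : ∃ s, s = u * x * u⁻¹ := ⟨_, rfl⟩
  obtain ⟨s2, hs2⟩ : ∃ s, s = u * s1 * u⁻¹ := ⟨_, rfl⟩
  rw [← hs1] at hx
  have r1 : u * x = s1 * u := by rw [hs1, mul_assoc (u * x), inv_mul_cancel₀ hu, mul_one]
  have r2 : u * s1 = s2 * u := by rw [hs2, mul_assoc (u * s1), inv_mul_cancel₀ hu, mul_one]
  have r3 : u * s2 = x * u := by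
    have h1 : u * u * u * x = x * (u * u * u) := by rw [hu3, Algebra.commutes]
    have h2 : u * s2 * (u * u) = x * u * (u * u) := by
      calc u * s2 * (u * u) = u * (s2 * u) * u := by noncomm_ring
        _ = u * (u * s1) * u := by rw [r2]
        _ = u * u * (s1 * u) := by noncomm_ring
        _ = u * u * (u * x) := by rw [r1]
        _ = u * u * u * x := by noncomm_ring
        _ = x * (u * u * u) := h1
        _ = x * u * (u * u) := by noncomm_ring
    exact mul_right_cancel₀ (mul_ne_zero hu hu) h2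
  have c1 : x * s1 = s1 * x := hx
  have c2 : s1 * s2 = s2 * s1 := by
    apply mul_right_cancel₀ hu
    calc s1 * s2 * u = s1 * (s2 * u) := by noncomm_ring
      _ = s1 * (u * s1) := by rw [r2]
      _ = (s1 * u) * s1 := by noncomm_ring
      _ = (u * x) * s1 := by rw [r1]
      _ = u * (x * s1) := by noncomm_ring
      _ = u * (s1 * x) := by rw [c1]
      _ = (u * s1) * x := by noncomm_ring
      _ = (s2 * u) * x := by rw [r2]
      _ = s2 * (u * x) := by noncomm_ring
      _ = s2 * (s1 * u) := by rw [r1]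
      _ = s2 * s1 * u := by noncomm_ring
  have c3 : s2 * x = x * s2 := by
    apply mul_right_cancel₀ hu
    calc s2 * x * u = s2 * (x * u) := by noncomm_ring
      _ = s2 * (u * s2) := by rw [r3]
      _ = (s2 * u) * s2 := by noncomm_ring
      _ = (u * s1) * s2 := by rw [r2]
      _ = u * (s1 * s2) := by noncomm_ring
      _ = u * (s2 * s1) := by rw [c2]
      _ = (u * s2) * s1 := by noncomm_ring
      _ = (x * u) * s1 := by rw [r3]
      _ = x * (u * s1) := by noncomm_ring
      _ = x * (s2 * u) := by rw [r2]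
      _ = x * s2 * u := by noncomm_ring
  obtain ⟨a, ha⟩ : ∃ s, s = x - s1 := ⟨_, rfl⟩
  obtain ⟨b, hb⟩ : ∃ s, s = s1 - s2 := ⟨_, rfl⟩
  obtain ⟨e, he⟩ : ∃ s, s = s2 - x := ⟨_, rfl⟩
  have ua : u * a = b * u := by rw [ha, hb, mul_sub, sub_mul, r1, r2]
  have ub : u * b = e * u := by rw [hb, he, mul_sub, sub_mul, r2, r3]
  have ue : u * e = a * u := by rw [he, ha, mul_sub, sub_mul, r3, r1]
  have a0 : a ≠ 0 := by
    intro h
    rw [ha, sub_eq_zero] at h
    apply hux
    rw [r1, ← h]
  have b0 : b ≠ 0 := by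
    intro h
    rw [h, zero_mul] at ua
    exact (mul_ne_zero hu a0) ua
  have e0 : e ≠ 0 := by
    intro h
    rw [h, zero_mul] at ub
    exact (mul_ne_zero hu b0) ub
  have habe : a + b + e = 0 := by rw [ha, hb, he]; abel
  obtain ⟨y, hy⟩ : ∃ s, s = a * b⁻¹ := ⟨_, rfl⟩
  obtain ⟨z, hz⟩ : ∃ s, s = b * e⁻¹ := ⟨_, rfl⟩
  obtain ⟨w, hw⟩ : ∃ s, s = e * a⁻¹ := ⟨_, rfl⟩
  have uy : u * y = z * u := by
    rw [hy, hz, ← mul_assoc, ua, mul_assoc, y3_inv b0 e0 ub, ← mul_assoc]
  have uz : u * z = w * u := by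
    rw [hz, hw, ← mul_assoc, ub, mul_assoc, y3_inv e0 a0 ue, ← mul_assoc]
  have uw : u * w = y * u := by
    rw [hw, hy, ← mul_assoc, ue, mul_assoc, y3_inv a0 b0 ua, ← mul_assoc]
  have hy1 : 1 + y = -(e * b⁻¹) := by
    have h1 : b + a = -e := by
      rw [eq_neg_iff_add_eq_zero, add_comm b a]
      exact habe
    calc 1 + y = b * b⁻¹ + a * b⁻¹ := by rw [mul_inv_cancel₀ b0, hy]
      _ = (b + a) * b⁻¹ := by rw [add_mul]
      _ = _ := by rw [h1, neg_mul]
  have zy : z * (1 + y) = -1 := by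
    rw [hy1, hz, mul_neg, mul_assoc, ← mul_assoc e⁻¹, inv_mul_cancel₀ e0, one_mul,
      mul_inv_cancel₀ b0]
  have wy : w * y = -(1 + y) := by
    rw [hy1, neg_neg, hw, hy, mul_assoc, ← mul_assoc a⁻¹, inv_mul_cancel₀ a0, one_mul]
  have hTu : (y + z + w) * u = u * (y + z + w) := by
    rw [mul_add, mul_add, uy, uz, uw, add_mul, add_mul]
    abel
  have hTx : (y + z + w) * x = x * (y + z + w) := by
    have d1 : Commute x s1 := c1
    have d2 : Commute x s2 := c3.symm
    have da : Commute x a := by rw [ha]; exact (Commute.refl x).sub_right d1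
    have db : Commute x b := by rw [hb]; exact d1.sub_right d2
    have de : Commute x e := by rw [he]; exact d2.sub_right (Commute.refl x)
    have dy : Commute x y := by rw [hy]; exact da.mul_right db.inv_right₀
    have dz : Commute x z := by rw [hz]; exact db.mul_right de.inv_right₀
    have dw : Commute x w := by rw [hw]; exact de.mul_right da.inv_right₀
    exact ((dy.add_right dz).add_right dw).symm
  obtain ⟨t, ht⟩ := hK3 K D hD (y + z + w) x u hTx hTu (fun h => hux h.symm)
  have h1 : (y + z + w) * (y * (1 + y)) = y * y * y - (y + y + y) - 1 := by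
    calc (y + z + w) * (y * (1 + y))
        = y * (y * (1 + y)) + (z * (1 + y)) * y + (w * y) * (1 + y) := by noncomm_ring
      _ = y * (y * (1 + y)) + (-1) * y + (-(1 + y)) * (1 + y) := by rw [zy, wy]
      _ = _ := by noncomm_ring
  have h2 : y * y * y - (y + y + y) - 1 = t • y + t • (y * y) := by
    rw [← h1, ht, ← Algebra.smul_def, mul_add, mul_one, smul_add]
  have hcub : y * y * y = t • (y * y) + (t + 3) • y + 1 := by
    have h3 : y * y * y = (y * y * y - (y + y + y) - 1) + (y + y + y) + 1 := by abel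
    rw [h3, h2]
    module
  have hP : (1 + y) * (y * y - (t + 1) • y - 2) = -1 := by
    have h4 : (2:D) = (2:K) • (1:D) := by
      rw [Algebra.smul_def, map_ofNat, mul_one]
    have h5 : (1 + y) * (y * y - (t + 1) • y - 2) =
        y * y * y + y * y - (t + 1) • y - (t + 1) • (y * y) - (2:K) • (1:D) - (2:K) • y := by
      rw [h4, add_mul, one_mul, mul_sub, mul_sub, mul_smul_comm, mul_smul_comm, mul_one,
        ← mul_assoc]
      module
    rw [h5, hcub]
    module
  have hzP : z = y * y - (t + 1) • y - 2 := by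
    calc z = -(z * -1) := by rw [mul_neg, mul_one, neg_neg]
      _ = -(z * ((1 + y) * (y * y - (t + 1) • y - 2))) := by rw [hP]
      _ = -((z * (1 + y)) * (y * y - (t + 1) • y - 2)) := by rw [mul_assoc]
      _ = y * y - (t + 1) • y - 2 := by rw [zy, neg_mul, one_mul, neg_neg]
  exact ⟨y, t, ⟨hcub, by rw [uy, hzP], hu3, hc⟩⟩

end Pool.Agent.Helper75.PX
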